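import Pool.Agent.W836.SH.Stm

/-!
# SH-RA0, SH-BONE
-/

set_option autoImplicit false

open scoped Classical

namespace Pool.Agent.W103.SH

open Pool.Agent.W836.SH

variable {ι : Type}

theorem res_in {R : Finset ι} {v : ι → ℝ} {i : ι} (h : i ∈ R) : res R v i = v i := by
  unfold res; rw [if_pos h]

theorem res_out {R : Finset ι} {v : ι → ℝ} {i : ι} (h : i ∉ R) : res R v i = 0 := by
  unfold res; rw [if_neg h]

theorem res_neg {R : Finset ι} {v : ι → ℝ} : res R (-v) = -(res R v) := by
  funext i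
  show res R (-v) i = -(res R v i)
  by_cases h : i ∈ R
  · rw [res_in h, res_in h]; rfl
  · rw [res_out h, res_out h, neg_zero]

theorem TS.mono {V W : Finset (ι → ℝ)} (h : TS V) (hW : W ⊆ V) : TS W :=
  fun k r c hc => h k r c (fun j => hW (hc j))

theorem STAR.mono {V W : Finset (ι → ℝ)} (h : STAR V) (hW : W ⊆ V) : STAR W :=
  fun k r c hc => h k r c (fun j => hW (hc j))

theorem TS.pr {V : Finset (ι → ℝ)} (h : TS V) (R : Finset ι) : TS (pr R V) := by
  intro k r c hc
  have h1 : ∀ j, ∃ v ∈ V, res R v = c j := fun j => Finset.mem_image.1 (hc j)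
  choose v hv hvc using h1
  by_cases hr : ∀ i, r i ∈ R
  · have e : (Matrix.of fun i j => c j (r i) : Matrix (Fin k) (Fin k) ℝ) =
        Matrix.of fun i j => v j (r i) := by
      ext i j
      show c j (r i) = v j (r i)
      rw [← hvc, res_in (hr i)]
    rw [e]
    exact h k r v hv
  · push Not at hr
    obtain ⟨i, hi⟩ := hr
    rw [Matrix.det_eq_zero_of_row_eq_zero i (fun j => by
      show c j (r i) = 0
      rw [← hvc, res_out hi])]
    norm_num

theorem STAR.pr {V : Finset (ι → ℝ)} (h : STAR V) (R : Finset ι) : STAR (pr R V) := by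
  intro k r c hc
  have h1 : ∀ j, ∃ v ∈ V, res R v = c j := fun j => Finset.mem_image.1 (hc j)
  choose v hv hvc using h1
  by_cases hr : ∀ i, r i ∈ R
  · have e : ∀ j : Fin (k + 1),
        (Matrix.of fun i l => c (j.succAbove l) (r i) : Matrix (Fin k) (Fin k) ℝ) =
        Matrix.of fun i l => v (j.succAbove l) (r i) := by
      intro j
      ext i l
      show c (j.succAbove l) (r i) = v (j.succAbove l) (r i)
      rw [← hvc, res_in (hr i)]
    simp only [e]
    exact h k r v hv
  · push Not at hr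
    obtain ⟨i, hi⟩ := hr
    rw [Finset.sum_eq_zero]
    · norm_num
    · intro j _
      rw [Matrix.det_eq_zero_of_row_eq_zero i (fun l => by
        show c (j.succAbove l) (r i) = 0
        rw [← hvc, res_out hi])]
      norm_num

theorem Sym.pr {V : Finset (ι → ℝ)} (h : Sym V) (R : Finset ι) : Sym (pr R V) := by
  intro v hv
  obtain ⟨w, hw, rfl⟩ := Finset.mem_image.1 hv
  rw [← res_neg]
  exact Finset.mem_image.2 ⟨-w, h w hw, rfl⟩

theorem Sym.erase {V : Finset (ι → ℝ)} (h : Sym V) : Sym (V.erase 0) := by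
  intro v hv
  rw [Finset.mem_erase] at hv ⊢
  exact ⟨neg_ne_zero.2 hv.1, h v hv.2⟩

/-- `S_R1` for families which may contain `0` -/
theorem r1' (h1 : S_R1) (R : Finset ι) (X : Finset (ι → ℝ)) (hS : STAR X) (hT : TS X)
    (hY : Sym X) (hI : IntOn R X) (hU : SuppOn R X) : (X.erase 0).card ≤ 2 * R.card := by
  have hsub : X.erase 0 ⊆ X := Finset.erase_subset _ _
  exact h1 ι R (X.erase 0) (STAR.mono hS hsub) (TS.mono hT hsub) (Sym.erase hY)
    (fun v hv => hI v (hsub hv)) (fun v hv => hU v (hsub hv)) (Finset.notMem_erase _ _)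

theorem card_le_erase (X : Finset (ι → ℝ)) : X.card ≤ (X.erase 0).card + 1 := by
  have := Finset.pred_card_le_card_erase (s := X) (a := (0 : ι → ℝ))
  omega

theorem bone (h1 : S_R1) (h2 : S_TSPR) (h3 : S_STARXX) : S_BONE := by
  intro ι R V s hs hSYS
  obtain ⟨_, hT, hY, hI, hH, _⟩ := hSYS
  have a1 := (h2 ι V R s hT).2.1
  have a2 := (h3 ι V R s hT hH hs).1
  have hmem : ∀ x ∈ XX s R V, ∃ v ∈ V, (∃ w ∈ V, (∀ i ∈ R, w i = v i) ∧ w s ≠ v s) ∧
      res R v = x := by
    intro x hx
    obtain ⟨v, hv, rfl⟩ := Finset.mem_image.1 hx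
    rw [Finset.mem_filter] at hv
    exact ⟨v, hv.1, hv.2, rfl⟩
  have hYX : Sym (XX s R V) := by
    intro x hx
    obtain ⟨v, hv, ⟨w, hw, hw1, hw2⟩, rfl⟩ := hmem x hx
    rw [← res_neg]
    refine Finset.mem_image.2 ⟨-v, Finset.mem_filter.2 ⟨hY v hv, -w, hY w hw, ?_, ?_⟩, rfl⟩
    · intro i hi
      show -(w i) = -(v i)
      rw [hw1 i hi]
    · show -(w s) ≠ -(v s)
      intro h
      exact hw2 (neg_injective h)
  have hIX : IntOn R (XX s R V) := by
    intro x hx i hi
    obtain ⟨v, hv, _, rfl⟩ := hmem x hx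
    rw [res_in hi]
    exact hI v hv i hi
  have hUX : SuppOn R (XX s R V) := by
    intro x hx i hi
    obtain ⟨v, _, _, rfl⟩ := hmem x hx
    exact res_out hi
  have h5 := r1' h1 R (XX s R V) a2 a1 hYX hIX hUX
  have h6 := card_le_erase (XX s R V)
  omega

/-- two independent integral columns -/
theorem exists_minor {R : Finset ι} {w w' : ι → ℝ}
    (hw : ∀ i ∈ R, w i = 0 ∨ w i = 1 ∨ w i = -1) (hw' : ∀ i ∈ R, w' i = 0 ∨ w' i = 1 ∨ w' i = -1)
    (hs : ∀ i, i ∉ R → w i = 0) (hs' : ∀ i, i ∉ R → w' i = 0) (h0 : w ≠ 0) (h0' : w' ≠ 0)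
    (hne : w' ≠ w) (hne' : w' ≠ -w) :
    ∃ i ∈ R, ∃ l ∈ R, 1 ≤ |w i * w' l - w l * w' i| := by
  by_contra hcon
  push Not at hcon
  have key : ∀ i ∈ R, ∀ l ∈ R, w i * w' l = w l * w' i := by
    intro i hi l hl
    have h := hcon i hi l hl
    rw [abs_lt] at h
    rcases hw i hi with a | a | a <;> rcases hw l hl with b | b | b <;>
      rcases hw' i hi with c | c | c <;> rcases hw' l hl with d | d | d <;>
      (rw [a, b, c, d] at h ⊢) <;> first
        | (norm_num; done)
        | (exfalso; norm_num at h)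
  obtain ⟨i0, hi0⟩ : ∃ i, w i ≠ 0 := by
    by_contra hc
    push Not at hc
    exact h0 (funext hc)
  have hiR : i0 ∈ R := by
    by_contra hc
    exact hi0 (hs i0 hc)
  rcases hw i0 hiR with a | a | a
  · exact hi0 a
  · rcases hw' i0 hiR with c | c | c
    · apply h0'
      funext l
      by_cases hl : l ∈ R
      · have := key i0 hiR l hl
        rw [a, c] at this
        show w' l = 0
        linarith
      · exact hs' l hl
    · apply hne
      funext l
      by_cases hl : l ∈ R
      · have := key i0 hiR l hl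
        rw [a, c] at this
        linarith
      · rw [hs' l hl, hs l hl]
    · apply hne'
      funext l
      show w' l = -(w l)
      by_cases hl : l ∈ R
      · have := key i0 hiR l hl
        rw [a, c] at this
        linarith
      · rw [hs' l hl, hs l hl, neg_zero]
  · rcases hw' i0 hiR with c | c | c
    · apply h0'
      funext l
      by_cases hl : l ∈ R
      · have := key i0 hiR l hl
        rw [a, c] at this
        show w' l = 0
        linarith
      · exact hs' l hl
    · apply hne'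
      funext l
      show w' l = -(w l)
      by_cases hl : l ∈ R
      · have := key i0 hiR l hl
        rw [a, c] at this
        linarith
      · rw [hs' l hl, hs l hl, neg_zero]
    · apply hne
      funext l
      by_cases hl : l ∈ R
      · have := key i0 hiR l hl
        rw [a, c] at this
        linarith
      · rw [hs' l hl, hs l hl]

/-- four columns violating `STAR` -/
theorem four_cols {Y : Finset (ι → ℝ)} (hS : STAR Y) (i l g : ι) (p q p' q' : ℝ)
    (y0 y1 y2 y3 : ι → ℝ) (m0 : y0 ∈ Y) (m1 : y1 ∈ Y) (m2 : y2 ∈ Y) (m3 : y3 ∈ Y)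
    (a0 : y0 i = p) (b0 : y0 l = q) (c0 : y0 g = 1 / 2)
    (a1 : y1 i = -p) (b1 : y1 l = -q) (c1 : y1 g = 1 / 2)
    (a2 : y2 i = p') (b2 : y2 l = q') (c2 : y2 g = 1 / 2)
    (a3 : y3 i = -p') (b3 : y3 l = -q') (c3 : y3 g = 1 / 2)
    (hD : 1 ≤ |p * q' - q * p'|) : False := by
  have h := hS 3 ![i, l, g] ![y0, y1, y2, y3] (by
    intro j
    fin_cases j
    · exact m0
    · exact m1
    · exact m2
    · exact m3)
  have e0 : (Matrix.of fun a b => (![y0, y1, y2, y3] : Fin 4 → ι → ℝ)
      ((0 : Fin 4).succAbove b) (![i, l, g] a) : Matrix (Fin 3) (Fin 3) ℝ).det =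
      -(p * q' - q * p') := by
    rw [Matrix.det_fin_three]
    simp [Fin.succAbove, a1, b1, c1, a2, b2, c2, a3, b3, c3]
    ring
  have e1 : (Matrix.of fun a b => (![y0, y1, y2, y3] : Fin 4 → ι → ℝ)
      ((1 : Fin 4).succAbove b) (![i, l, g] a) : Matrix (Fin 3) (Fin 3) ℝ).det =
      p * q' - q * p' := by
    rw [Matrix.det_fin_three]
    simp [Fin.succAbove, a0, b0, c0, a2, b2, c2, a3, b3, c3]
    ring
  have e2 : (Matrix.of fun a b => (![y0, y1, y2, y3] : Fin 4 → ι → ℝ)
      ((2 : Fin 4).succAbove b) (![i, l, g] a) : Matrix (Fin 3) (Fin 3) ℝ).det =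
      p * q' - q * p' := by
    rw [Matrix.det_fin_three]
    simp [Fin.succAbove, a0, b0, c0, a1, b1, c1, a3, b3, c3]
    ring
  have e3 : (Matrix.of fun a b => (![y0, y1, y2, y3] : Fin 4 → ι → ℝ)
      ((3 : Fin 4).succAbove b) (![i, l, g] a) : Matrix (Fin 3) (Fin 3) ℝ).det =
      -(p * q' - q * p') := by
    rw [Matrix.det_fin_three]
    simp [Fin.succAbove, a0, b0, c0, a1, b1, c1, a2, b2, c2]
    ring
  rw [Fin.sum_univ_four, e0, e1, e2, e3, abs_neg] at h
  linarith

/-- the case `P = {g}` -/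
theorem ra0_one (h1 : S_R1) (R : Finset ι) (g : ι) (Y : Finset (ι → ℝ))
    (hS : STAR Y) (hT : TS Y) (hY : Sym Y) (hI : IntOn R Y) (hH : HalfOn {g} Y)
    (hU : SuppOn (R ∪ {g}) Y) : Y.card ≤ 2 * R.card + 4 := by
  set W : Finset (ι → ℝ) := Y.filter (fun y => y g = 1 / 2) with hW
  -- |Y| ≤ 2 |W|
  have hYW : Y.card ≤ 2 * W.card := by
    have h2 : (Y.filter (fun y => ¬ y g = 1 / 2)).card ≤ W.card := by
      apply Finset.card_le_card_of_injOn (fun y => -y)
      · intro y hy
        rw [Finset.mem_coe, Finset.mem_filter] at hy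
        rw [Finset.mem_coe, hW, Finset.mem_filter]
        refine ⟨hY y hy.1, ?_⟩
        have h3 := hH y hy.1 g (Finset.mem_singleton_self g)
        rcases h3 with h3 | h3
        · exact absurd h3 hy.2
        · show -(y g) = 1 / 2
          rw [h3, neg_neg]
      · intro a _ b _ hab
        exact neg_injective hab
    have h3 := Finset.card_filter_add_card_filter_not (s := Y) (fun y => y g = 1 / 2)
    rw [← hW] at h3
    omega
  -- the restrictions to R
  have hinj : Set.InjOn (res R) (W : Set (ι → ℝ)) := by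
    intro a ha b hb hab
    rw [Finset.mem_coe, hW, Finset.mem_filter] at ha hb
    funext i
    by_cases hi : i ∈ R
    · have := congrFun hab i
      rwa [res_in hi, res_in hi] at this
    · by_cases hig : i = g
      · rw [hig, ha.2, hb.2]
      · have hi2 : i ∉ R ∪ {g} := by
          rw [Finset.mem_union, Finset.mem_singleton]
          push Not
          exact ⟨hi, hig⟩
        rw [hU a ha.1 i hi2, hU b hb.1 i hi2]
  set A : Finset (ι → ℝ) := (W.image (res R)).erase 0 with hA
  have hWA : W.card ≤ A.card + 1 := by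
    have h2 := card_le_erase (W.image (res R))
    rw [Finset.card_image_of_injOn hinj] at h2
    exact h2
  set N : Finset (ι → ℝ) := (pr R Y).erase 0 with hN
  have hNc : N.card ≤ 2 * R.card := by
    refine r1' h1 R (pr R Y) (STAR.pr hS R) (TS.pr hT R) (Sym.pr hY R) ?_ ?_
    · intro x hx i hi
      obtain ⟨v, hv, rfl⟩ := Finset.mem_image.1 hx
      rw [res_in hi]
      exact hI v hv i hi
    · intro x hx i hi
      obtain ⟨v, _, rfl⟩ := Finset.mem_image.1 hx
      exact res_out hi
  have hNS : Sym N := Sym.erase (Sym.pr hY R)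
  have hAN : A ⊆ N := by
    intro x hx
    rw [hA, Finset.mem_erase] at hx
    obtain ⟨v, hv, rfl⟩ := Finset.mem_image.1 hx.2
    rw [hN, Finset.mem_erase]
    exact ⟨hx.1, Finset.mem_image.2 ⟨v, (Finset.mem_filter.1 hv).1, rfl⟩⟩
  set B : Finset (ι → ℝ) := A.image (fun v => -v) with hB
  have hBN : B ⊆ N := by
    intro x hx
    obtain ⟨v, hv, rfl⟩ := Finset.mem_image.1 hx
    exact hNS v (hAN hv)
  have hBc : B.card = A.card := Finset.card_image_of_injective _ neg_injective
  have hAm : ∀ w ∈ A, w ≠ 0 ∧ ∃ y ∈ Y, y g = 1 / 2 ∧ res R y = w := by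
    intro w hw
    rw [hA, Finset.mem_erase] at hw
    obtain ⟨v, hv, hv2⟩ := Finset.mem_image.1 hw.2
    rw [hW, Finset.mem_filter] at hv
    exact ⟨hw.1, v, hv.1, hv.2, hv2⟩
  -- at most one pair
  have hAB : (A ∩ B).card ≤ 2 := by
    by_cases hne : (A ∩ B).Nonempty
    · obtain ⟨w, hw⟩ := hne
      have hsub : A ∩ B ⊆ {w, -w} := by
        intro w' hw'
        rw [Finset.mem_insert, Finset.mem_singleton]
        by_contra hc
        push Not at hc
        rw [Finset.mem_inter] at hw hw'
        obtain ⟨wA, wB⟩ := hw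
        obtain ⟨wA', wB'⟩ := hw'
        obtain ⟨v, hv, hvw⟩ := Finset.mem_image.1 wB
        obtain ⟨v', hv', hvw'⟩ := Finset.mem_image.1 wB'
        have hvw2 : v = -w := by rw [← hvw]; exact (neg_neg v).symm
        have hvw2' : v' = -w' := by rw [← hvw']; exact (neg_neg v').symm
        obtain ⟨w0, y0, m0, c0, r0⟩ := hAm w wA
        obtain ⟨_, y1, m1, c1, r1⟩ := hAm v hv
        obtain ⟨w0', y2, m2, c2, r2⟩ := hAm w' wA'
        obtain ⟨_, y3, m3, c3, r3⟩ := hAm v' hv'
        rw [hvw2] at r1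
        rw [hvw2'] at r3
        have k0 : ∀ i ∈ R, y0 i = w i := fun i hi => by rw [← r0, res_in hi]
        have k1 : ∀ i ∈ R, y1 i = -(w i) := fun i hi => by
          have := congrFun r1 i
          rwa [res_in hi] at this
        have k2 : ∀ i ∈ R, y2 i = w' i := fun i hi => by rw [← r2, res_in hi]
        have k3 : ∀ i ∈ R, y3 i = -(w' i) := fun i hi => by
          have := congrFun r3 i
          rwa [res_in hi] at this
        obtain ⟨i, hi, l, hl, hil⟩ := exists_minor (R := R) (w := w) (w' := w')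
          (fun i hi => by rw [← k0 i hi]; exact hI y0 m0 i hi)
          (fun i hi => by rw [← k2 i hi]; exact hI y2 m2 i hi)
          (fun i hi => by rw [← r0, res_out hi]) (fun i hi => by rw [← r2, res_out hi])
          w0 w0' hc.1 hc.2
        exact four_cols hS i l g (w i) (w l) (w' i) (w' l) y0 y1 y2 y3 m0 m1 m2 m3
          (k0 i hi) (k0 l hl) c0 (k1 i hi) (k1 l hl) c1 (k2 i hi) (k2 l hl) c2
          (k3 i hi) (k3 l hl) c3 hil
      exact (Finset.card_le_card hsub).trans Finset.card_le_two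
    · rw [Finset.not_nonempty_iff_eq_empty.1 hne]
      norm_num
  have hun : (A ∪ B).card ≤ N.card := Finset.card_le_card (Finset.union_subset hAN hBN)
  have hie := Finset.card_union_add_card_inter A B
  omega

theorem ra0 (h1 : S_R1) : S_RA0 := by
  intro ι R P Y _ hS hT hY hI hH hU hP
  rcases Nat.le_one_iff_eq_zero_or_eq_one.1 hP with h0 | h0
  · rw [Finset.card_eq_zero] at h0
    subst h0
    rw [Finset.union_empty] at hU
    have h2 := r1' h1 R Y hS hT hY hI hU
    have h3 := card_le_erase Y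
    rw [Finset.card_empty]
    omega
  · obtain ⟨g, rfl⟩ := Finset.card_eq_one.1 h0
    have h2 := ra0_one h1 R g Y hS hT hY hI hH hU
    rw [h0]
    omega

end Pool.Agent.W103.SH
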